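import Mathlib
import Pool.Agent.MP_866953_gt.Pyt.B

namespace Pool.Agent.Results.MP_866953_gt.PytkeevPositive

open Topology

universe u v

/-- If `X` has a countable Pytkeev network and `C_p(Y)` is a uniformly continuous image of
`C_p(X)`, then `Y` has a countable k-network. -/
theorem result (X : Type u) (Y : Type v) [TopologicalSpace X] [TopologicalSpace Y] [T35Space X]
    [T35Space Y]
    (hX : ∃ N : Set (Set X), N.Countable ∧ ∀ x : X, ∀ U ∈ 𝓝 x, (∃ n ∈ N, x ∈ n ∧ n ⊆ U) ∧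
      ∀ A : Set X, (∀ V ∈ 𝓝 x, (V ∩ A).Infinite) → ∃ n ∈ N, n ⊆ U ∧ (n ∩ A).Infinite)
    (φ : {f : X → ℝ // Continuous f} → {g : Y → ℝ // Continuous g})
    (hφ : UniformContinuous φ) (hs : Function.Surjective φ) :
    ∃ N : Set (Set Y), N.Countable ∧
      ∀ K U : Set Y, IsCompact K → IsOpen U → K ⊆ U →
        ∃ F : Finset (Set Y), (↑F : Set (Set Y)) ⊆ N ∧
          K ⊆ ⋃₀ (↑F : Set (Set Y)) ∧ ⋃₀ (↑F : Set (Set Y)) ⊆ U := by
  obtain ⟨N, hN, h⟩ := hX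
  obtain ⟨e, he⟩ := (hN.insert ∅).exists_eq_range (Set.insert_nonempty _ _)
  have hm : ∀ n ∈ N, ∃ i, e i = n := fun n hn => by
    have : n ∈ Set.range e := he ▸ Set.mem_insert_of_mem _ hn
    exact this
  obtain ⟨M, hM, hk⟩ := Pool.Agent.MP_866953_gt.Pyt.main (e := e) (fun x U hU => by
      obtain ⟨n, hn, h1⟩ := (h x U hU).1
      obtain ⟨i, rfl⟩ := hm n hn
      exact ⟨i, h1⟩) (fun x U hU A hA => by
      obtain ⟨n, hn, h1⟩ := (h x U hU).2 A hA
      obtain ⟨i, rfl⟩ := hm n hn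
      exact ⟨i, h1⟩) hφ hs
  refine ⟨M, hM, fun K U hK hU hKU => ?_⟩
  obtain ⟨n, hn, h1, h2⟩ := hk K U hK hU hKU
  exact ⟨{n}, by simpa using hn, by simpa using h1, by simpa using h2⟩

end Pool.Agent.Results.MP_866953_gt.PytkeevPositive
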